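import Pool.Agent.N64.AF.X7

/-!
# Self-dual Chow-Künneth decompositions from ONE inequality

Let `X` be a smooth projective variety of dimension `d` over a field, whose Künneth components are
algebraic (they are the classes of some correspondences `p_n` of degree 0). Let `g (n)` be the
dimension of the space of the homologically trivial cycles on `X^n` (rational coefficients, all
codimensions) modulo the smash nilpotent ones, and `r (n)` the rank of the cycles on `X^n` modulo numerical
equivalence. As algebraically trivial cycles are smash nilpotent (Voevodsky, Voisin), `g (n)` is at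
most the dimension of the Griffiths group `Griff^*(X^n) ⊗ ℚ`.

Theorem. Suppose that `g (a + 2) < (a + 1) r (a)` for ONE `a ≥ 0` (for instance: the Griffiths
group of `X^3` has dimension less than twice the rank of the numerical Chow group of `X`). Then:
(0) the homologically trivial correspondences of `X` are nilpotent;
(1) `X` has a self-dual Chow-Künneth decomposition `π_n ∈ CH^d(X × X)`, `ᵗπ_n = π_{2d-n}`;
(2) two self-dual Chow-Künneth decompositions `π`, `π'` of `X` are related by an isometry `u` of `h(X)`
which acts trivially on cohomology: `ᵗu ∘ u = 1 = u ∘ ᵗu`, `u ∘ π_n = π'_n ∘ u`, `u_* = 1` on `H^*(X)`.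

For `a = 0` the hypothesis says that all homologically trivial cycles on `X × X` are smash nilpotent, and the
conclusion is known in this case; for `a ≥ 1` it is a bound for the size of the group on `X^{a+2}` and
nothing is required of the individual cycles. If (0) fails, the groups modulo smash nilpotence, hence the
Griffiths groups, are large on all powers: `g (a + 2) ≥ (a + 1) r (a)` for ALL `a`.

The setting: `C` is the category of smooth projective varieties (with direct factors) over the base field,
the morphisms are the correspondences of all degrees, `T = h(X)`, `R` is a Weil cohomology, `τ` the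
transposition of correspondences, `D = CH^d(X × X)` the subalgebra of the correspondences of degree 0,
`s (n) = 2 d - n`. The even Künneth projector is algebraic (condition in `IsPow`), as the sum of
components.

Idea of the proof. Let `f` be a homologically trivial correspondence which is not nilpotent. A
correspondence whose class is smash nilpotent is nilpotent, so `f` acts non-nilpotently on the space `G(T)` of
the homologically trivial cycles on `X × X` modulo the smash nilpotent ones; a polynomial in `f` yields
a class `z ≠ 0` killed by a correspondence numerically equal to the identity, and the insertions of `z` in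
the `a + 1` slots of `X^{a+1}` produce `(a + 1) r (a)` independent classes on `X^{a+1} × X`. This
proves (0). Now lift the classes of the `p_n` to orthogonal idempotents `e_n` (nil ideal). The transposed
system `f_n = ᵗe_{2d-n}` is another lift, `u = Σ f_n e_n` is unipotent and equal to its transpose, `v = √u`
(a polynomial in `u`) is symmetric, and `π_n = v e_n v⁻¹` is self-dual. For (2) take `w = Σ π'_n π_n`
and `u = w (ᵗw w)^{-1/2}`.

Authors: helper64 (this result, plan), and, for the lemmas of the growth law used here, helper136,
helper327, helper199, helper767, helper8, helper364, helper216, helper73, helper833, helper140, helper494,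
helper505, helper301, helper441, helper591, helper712, helper945, helper701, helper344, helper690,
helper322 (smash nilpotence).
-/

set_option autoImplicit false

open CategoryTheory MonoidalCategory Module
open Pool.Agent.Y112.SR Pool.Agent.Y112.KD Pool.Agent.N64.AF

namespace Pool.Agent.Results.MP_8a7054_ag.OneInequality

universe v u w t

/-- One inequality implies that the homologically trivial endomorphisms of `T` are nilpotent, that
there are self-dual Chow-Künneth decompositions, and that they are unique up to isometries which are
trivial on cohomology. -/
theorem result {C : Type u} [Category.{v} C] [Preadditive C] [MonoidalCategory C]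
    [MonoidalPreadditive C] [SymmetricCategory C] [RightRigidCategory C]
    {Λ : Type t} [Field Λ] [CharZero Λ] [Linear Λ C] [MonoidalLinear Λ C]
    {K : Type w} [Field K] [IsAlgClosed K] [Algebra Λ K] (R : SuperRealisation C K)
    (T : C) [ExactPairing T T] (h : IsPow Λ R T) (a : ℕ)
    (hlt : dimE Λ (HomModSmash h.real (tp T (a + 2))) <
      (((a + 1) * numRank Λ (tp T a) : ℕ) : ℕ∞)) :
    (∀ f : End T, R.H.map (f : T ⟶ T) = 0 → IsNilpotent f) ∧
    ∀ {ι : Type} [Fintype ι] (s : ι → ι) (_ : ∀ i, s (s i) = i) (D : Subalgebra Λ (End T))
      (τ : End T →ₗ[Λ] End T) (_ : IsTransposition R Λ τ) (_ : ∀ f ∈ D, τ f ∈ D)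
      (p : ι → (T ⟶ T)) (_ : IsKunneth R p) (_ : ∀ i, (p i : End T) ∈ D)
      (_ : ∀ i, R.H.map (τ (p i) : T ⟶ T) = R.H.map (p (s i))),
      (∃ π : ι → (T ⟶ T), IsLift R p π ∧ (∀ i, (π i : End T) ∈ D) ∧ ∀ i, τ (π i) = π (s i)) ∧
      ∀ π π' : ι → (T ⟶ T), IsLift R p π → (∀ i, (π i : End T) ∈ D) → (∀ i, τ (π i) = π (s i)) →
        IsLift R p π' → (∀ i, (π' i : End T) ∈ D) → (∀ i, τ (π' i) = π' (s i)) →
        ∃ u : T ⟶ T, (u : End T) ∈ D ∧ R.H.map u = 𝟙 _ ∧ u ≫ (τ u : T ⟶ T) = 𝟙 T ∧
          (τ u : T ⟶ T) ≫ u = 𝟙 T ∧ ∀ i, π i ≫ u = u ≫ π' i :=
  selfdual_of_one h hlt

end Pool.Agent.Results.MP_8a7054_ag.OneInequality
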