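import Pool.Agent.N103.SD.Tate

/-!
# Cancellation for self-dual Chow-Kunneth decompositions

`𝒱` is a class of smooth projective geometrically irreducible varieties over the field `k` closed
under products (for example all of them), `C` the Chow groups with rational coefficients (in the
form of their formal properties, `IsChowProj`) and `H` a Weil cohomology theory (`IsWeilProj`).
`C.comp Γ Δ` is the composition of first `Γ`, then `Δ`, `tp` the transpose, `dg` the diagonal.

1. Let `e` be a projector of `Y` equal to its transpose, such that the homologically trivial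
   endomorphisms of the complement `(Y, 1 - e)` are nilpotent (for example `(Y, 1 - e)` is finite
   dimensional; nothing is assumed on `(Y, e)`). Then every self-dual Chow-Kunneth decomposition
   `π` of `Y` can be moved to one commuting with `e` by an isometry `s` of `h(Y)`
   (`s ∘ ᵗs = ᵗs ∘ s = 1`) acting as the identity on the cohomology: the family `ᵗs ∘ π n ∘ s`.
   Hence `Y` has a self-dual Chow-Kunneth decomposition if and only if `(Y, e)` has one and the
   Kunneth components of `1 - e` are algebraic.
2. Let `a : h(X) → h(Y)(c)`, `dim Y = dim X + 2 c`, be a morphism with `ᵗa ∘ a = N ≠ 0` such that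
   the homologically trivial endomorphisms of its complement are nilpotent. Then `Y` has a self-dual
   Chow-Kunneth decomposition if and only if `X` has one and the Kunneth components of the
   complement are algebraic. If the complement is a sum of Tate motives, then `Y` has a self-dual
   Chow-Kunneth decomposition if and only if `X` has one.
3. The case of a morphism `f : Y → X` of degree `N ≠ 0`, `dim Y = dim X`, and `a = f^*`, for example
   a blow-up.

The direction from `Y` to `X` needs the cancellation: a decomposition of `Y` is in no way compatible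
with `f`. For the proof one constructs, from the compressions of the `π n` to the corner of
`q = 1 - e`, symmetric idempotents with sum `q` (polynomials in `∑ (n - d) q π_n q`, which is
antisymmetric), an isometric embedding of `(Y, q)` into `Y` respecting both decompositions (by an
inverse square root) and an isometry of `Y` extending it (a variant of Witt's theorem).
-/

open CategoryTheory AlgebraicGeometry

set_option autoImplicit false

universe u v w

namespace Pool.Agent.Results.MP_8a7054_ag.WittCancellation

open Pool.Agent.H914 Pool.Agent.W492.BB Pool.Agent.TH133 Pool.Agent.Y107 Pool.Agent.W550.Corr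
  Pool.Agent.N103.SD

/-- **Cancellation for self-dual Chow-Kunneth decompositions.** -/
theorem result {k : Type u} [Field k] {𝒱 : VarClass k} (C : TheoryData.{u, v, 0} 𝒱 ℚ)
    [IsChowProj C] {K : Type w} [Field K] (H : WeilTheoryData.{u, v, w} C K) [IsWeilProj H]
    (Y : 𝒱.Obj) :
    -- symmetric projectors
    (∀ e : C.A (Y.prod Y), SymProjector C e → NilComplement H e →
      (∀ π : ℕ → C.A (Y.prod Y), IsCK H Y π → IsSelfDual C π →
        ∃ s : C.A (Y.prod Y), C.Deg Y.dim s ∧ C.comp s (tp C s) = dg C Y ∧
          C.comp (tp C s) s = dg C Y ∧ (∀ x : H.A Y, H.act (H.cl s) x = x) ∧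
          IsCK H Y (moved C s π) ∧ IsSelfDual C (moved C s π) ∧
          ∀ n, C.comp (moved C s π n) e = C.comp e (moved C s π n)) ∧
      (HasSelfDualCK H Y ↔
        (∃ r, SelfDualCK H e r) ∧ AlgebraicComponents H (dg C Y - e))) ∧
    -- direct factors
    (∀ (X : 𝒱.Obj) (c : ℕ) (N : ℚ) (a : C.A (X.prod Y)), Y.dim = X.dim + 2 * c → N ≠ 0 →
      C.Deg ((X.dim : ℤ) + c) a → C.comp a (tp C a) = N • dg C X →
      (NilOffImage H a → (HasSelfDualCK H Y ↔ HasSelfDualCK H X ∧
        AlgebraicComponents H (dg C Y - N⁻¹ • C.comp (tp C a) a))) ∧
      (TateComplement C a N → (HasSelfDualCK H Y ↔ HasSelfDualCK H X))) ∧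
    -- morphisms of non-zero degree
    (∀ (X : 𝒱.Obj) (f : Y ⟶ X) (N : ℚ), Y.dim = X.dim → N ≠ 0 → C.push f 1 = N • 1 →
      (NilOffImage H (C.cograph f) → (HasSelfDualCK H Y ↔ HasSelfDualCK H X ∧
        AlgebraicComponents H (dg C Y - N⁻¹ • C.comp (C.graph f) (C.cograph f)))) ∧
      (TateComplement C (C.cograph f) N → (HasSelfDualCK H Y ↔ HasSelfDualCK H X))) := by
  refine ⟨fun e he hnil => ⟨fun π h1 h2 => move he hnil h1 h2, cancel he hnil⟩,
    fun X c N a hd hN ha haa => ⟨cancel_factor hd hN ha haa, cancel_tate hd hN ha haa⟩,
    fun X f N hd hN hf => ⟨cancel_morphism f hd hN hf, ?_⟩⟩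
  have h1 : C.comp (C.cograph f) (tp C (C.cograph f)) = N • dg C X := by
    rw [tp_cograph, cograph_graph, hf]
    exact map_smul (C.push _) _ _
  exact cancel_tate (c := 0) (by rw [hd]; rfl) hN (by
    have h2 := cograph_mem (C := C) f
    rwa [show (X.dim : ℤ) = X.dim + (0 : ℕ) by push_cast; ring] at h2) h1

end Pool.Agent.Results.MP_8a7054_ag.WittCancellation
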